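import Pool.Agent.X185.GR.Stone

set_option autoImplicit false
set_option linter.unusedSectionVars false
set_option linter.unusedVariables false
set_option linter.unusedSimpArgs false

namespace Pool.Agent.X185.GR

open Filter Topology MeasureTheory
open scoped Classical

section counting
variable {W : Type*} [Fintype W]

lemma card_hit (N : ℕ) (w : W) :
    ((Finset.univ.filter fun h : W → Fin (N + 1) => h w = 0).card : ℝ) * (N + 1) =
      Fintype.card (W → Fin (N + 1)) := by
  have h1 : (Finset.univ.filter fun h : W → Fin (N + 1) => h w = 0) =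
      Fintype.piFinset fun v => if v = w then ({0} : Finset (Fin (N + 1))) else Finset.univ := by
    ext h
    rw [Finset.mem_filter, Fintype.mem_piFinset]
    constructor
    · rintro ⟨-, h1⟩ v
      by_cases hv : v = w
      · subst hv
        simp [h1]
      · simp [hv]
    · intro h1
      have := h1 w
      rw [if_pos rfl, Finset.mem_singleton] at this
      exact ⟨Finset.mem_univ _, this⟩
  have h2 : ∀ v, (if v = w then ({0} : Finset (Fin (N + 1))) else Finset.univ).card =
      if v = w then 1 else N + 1 := by
    intro v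
    split <;> simp
  rw [h1, Fintype.card_piFinset]
  simp only [h2]
  rw [Fintype.card_fun, Fintype.card_fin, Finset.prod_ite, Finset.prod_const_one, one_mul,
    Finset.prod_const]
  have h3 : (Finset.univ.filter fun v : W => ¬ v = w).card + 1 = Fintype.card W := by
    rw [Finset.filter_ne', Finset.card_erase_of_mem (Finset.mem_univ _), Finset.card_univ]
    have : 0 < Fintype.card W := Fintype.card_pos_iff.2 ⟨w⟩
    omega
  rw [← h3]
  push_cast
  rw [pow_succ]

lemma card_avoid (N : ℕ) (S : Finset W) :
    ((Finset.univ.filter fun h : W → Fin (N + 1) => ∀ w ∈ S, h w ≠ 0).card : ℝ) =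
      ((N : ℝ) / (N + 1)) ^ S.card * Fintype.card (W → Fin (N + 1)) := by
  have h1 : (Finset.univ.filter fun h : W → Fin (N + 1) => ∀ w ∈ S, h w ≠ 0) =
      Fintype.piFinset fun v => if v ∈ S then (Finset.univ.erase (0 : Fin (N + 1)))
        else Finset.univ := by
    ext h
    rw [Finset.mem_filter, Fintype.mem_piFinset]
    constructor
    · rintro ⟨-, h1⟩ v
      by_cases hv : v ∈ S
      · simp [hv, h1 v hv]
      · simp [hv]
    · intro h1
      refine ⟨Finset.mem_univ _, fun w hw => ?_⟩
      have := h1 w
      rw [if_pos hw, Finset.mem_erase] at this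
      exact this.1
  have h2 : ∀ v, (if v ∈ S then (Finset.univ.erase (0 : Fin (N + 1))) else Finset.univ).card =
      if v ∈ S then N else N + 1 := by
    intro v
    split
    · rw [Finset.card_erase_of_mem (Finset.mem_univ _), Finset.card_univ, Fintype.card_fin]
      rfl
    · simp
  rw [h1, Fintype.card_piFinset]
  simp only [h2]
  rw [Fintype.card_fun, Fintype.card_fin, Finset.prod_ite, Finset.prod_const, Finset.prod_const]
  have h3 : (Finset.univ.filter fun v : W => v ∈ S) = S := by
    ext v
    simp
  have h4 : (Finset.univ.filter fun v : W => ¬ v ∈ S).card + S.card = Fintype.card W := by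
    have := Finset.card_filter_add_card_filter_not (s := (Finset.univ : Finset W)) (fun v => v ∈ S)
    rw [h3, Finset.card_univ] at this
    omega
  rw [h3, ← h4]
  push_cast
  rw [div_pow, pow_add]
  have : ((N : ℝ) + 1) ^ S.card ≠ 0 := by positivity
  field_simp

end counting

section averaging
variable {Ω : Type*} [MeasurableSpace Ω] {P : Measure Ω} [IsProbabilityMeasure P]

lemma sum_measure_le {ι : Type*} [Fintype ι] (D : ι → Set Ω) (hD : ∀ i, MeasurableSet (D i))
    (E : Set Ω) (hE : MeasurableSet E) (c : ℝ) (hc : 0 ≤ c)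
    (h : ∀ x ∈ E, ((Finset.univ.filter fun i => x ∈ D i).card : ℝ) ≤ c) :
    ∑ i, P.real (D i ∩ E) ≤ c := by
  have h1 : ∀ i, P.real (D i ∩ E) = ∫ x in E, (D i).indicator (fun _ => (1 : ℝ)) x ∂P := by
    intro i
    rw [integral_indicator (hD i), Measure.restrict_restrict (hD i)]
    simp
  simp only [h1]
  rw [← integral_finsetSum]
  · calc ∫ x in E, ∑ i, (D i).indicator (fun _ => (1 : ℝ)) x ∂P ≤ ∫ x in E, c ∂P := by
          refine setIntegral_mono_on ?_ (integrable_const c) hE ?_
          · refine integrable_finsetSum _ fun i _ => ?_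
            exact (integrable_const (1 : ℝ)).indicator (hD i)
          · intro x hx
            refine le_trans (le_of_eq ?_) (h x hx)
            rw [Finset.card_filter]
            push_cast
            refine Finset.sum_congr rfl fun i _ => ?_
            by_cases hi : x ∈ D i
            · simp [hi]
            · simp [hi]
      _ = P.real E * c := by simp
      _ ≤ 1 * c := mul_le_mul_of_nonneg_right measureReal_le_one hc
      _ = c := one_mul c
  · intro i _
    exact (integrable_const (1 : ℝ)).indicator (hD i)

/-- the random set argument -/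
theorem hash {W : Type*} [Fintype W] [MeasurableSpace W] [MeasurableSingletonClass W]
    (z : Ω → W) (hz : Measurable z) (y : ℕ → Ω → W) (hy : ∀ n, Measurable (y n))
    (T : Finset ℕ) (E : Set Ω) (hE : MeasurableSet E) (q N : ℕ)
    (hq : ∀ x ∈ E, q ≤ (T.image fun n => y n x).card) {δ η : ℝ} (hδ : 0 < δ) (hη : 0 < η)
    (h1 : 1 / ((N : ℝ) + 1) ≤ δ / 4) (h2 : ((N : ℝ) / (N + 1)) ^ q ≤ η / 4) :
    ∃ R : Finset W, P.real {x | z x ∈ R} ≤ δ ∧
      P.real E - η ≤ P.real {x | ∃ n ∈ T, y n x ∈ R} := by
  have hall : ∀ (s : Set W), MeasurableSet s := fun s => s.toFinite.measurableSet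
  set H := W → Fin (N + 1) with hH
  set D1 : H → Set Ω := fun h => {x | h (z x) = 0} with hD1
  set D2 : H → Set Ω := fun h => {x | ∀ n ∈ T, h (y n x) ≠ 0} with hD2
  have hD1m : ∀ h, MeasurableSet (D1 h) := fun h => hz (hall {w | h w = 0})
  have hD2m : ∀ h, MeasurableSet (D2 h) := by
    intro h
    have : D2 h = ⋂ n ∈ T, (y n) ⁻¹' {w | h w ≠ 0} := by
      ext x
      simp [hD2]
    rw [this]
    exact Finset.measurableSet_biInter T fun n _ => hy n (hall _)
  have hcard : (0 : ℝ) < Fintype.card H := by
    have : 0 < Fintype.card H := Fintype.card_pos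
    exact_mod_cast this
  have hN : (0 : ℝ) < (N : ℝ) + 1 := by positivity
  have hS1 : ∑ h, P.real (D1 h ∩ Set.univ) ≤ Fintype.card H / ((N : ℝ) + 1) := by
    refine sum_measure_le D1 hD1m Set.univ MeasurableSet.univ _ (by positivity) ?_
    intro x _
    rw [le_div_iff₀ hN]
    convert (card_hit N (z x)).le using 4
    ext h
    simp [hD1]
  have hS2 : ∑ h, P.real (D2 h ∩ E) ≤ ((N : ℝ) / (N + 1)) ^ q * Fintype.card H := by
    refine sum_measure_le D2 hD2m E hE _ (by positivity) ?_
    intro x hx
    have h3 : ((Finset.univ.filter fun h : H => x ∈ D2 h).card : ℝ) =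
        ((Finset.univ.filter fun h : H => ∀ w ∈ T.image (fun n => y n x), h w ≠ 0).card : ℝ) := by
      refine congrArg (Nat.cast) (congrArg Finset.card ?_)
      ext h
      simp [hD2]
    have h3' := card_avoid N (T.image (fun n => y n x))
    refine le_trans (le_of_eq ?_) (le_of_eq (h3.trans h3') |>.trans ?_)
    · refine congrArg (Nat.cast) (congrArg Finset.card ?_)
      ext h
      simp
    refine mul_le_mul_of_nonneg_right ?_ hcard.le
    refine pow_le_pow_of_le_one (by positivity) ?_ (hq x hx)
    rw [div_le_one hN]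
    linarith
  obtain ⟨h, hh⟩ : ∃ h : H, P.real (D1 h) ≤ δ ∧ P.real (D2 h ∩ E) ≤ η := by
    by_contra hcon
    push Not at hcon
    have h4 : ∀ h : H, (1 : ℝ) ≤ P.real (D1 h ∩ Set.univ) / δ + P.real (D2 h ∩ E) / η := by
      intro h
      rw [Set.inter_univ]
      by_cases h5 : P.real (D1 h) ≤ δ
      · have h6 := hcon h h5
        have h7 : 1 ≤ P.real (D2 h ∩ E) / η := by
          rw [le_div_iff₀ hη]
          linarith
        have h8 : 0 ≤ P.real (D1 h) / δ := by positivity
        linarith
      · push Not at h5
        have h7 : 1 ≤ P.real (D1 h) / δ := by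
          rw [le_div_iff₀ hδ]
          linarith
        have h8 : 0 ≤ P.real (D2 h ∩ E) / η := by positivity
        linarith
    have h5 : (Fintype.card H : ℝ) ≤
        ∑ h : H, (P.real (D1 h ∩ Set.univ) / δ + P.real (D2 h ∩ E) / η) := by
      have := Finset.sum_le_sum fun (h : H) (_ : h ∈ Finset.univ) => h4 h
      simpa using this
    rw [Finset.sum_add_distrib, ← Finset.sum_div, ← Finset.sum_div] at h5
    have h6 : (∑ h : H, P.real (D1 h ∩ Set.univ)) / δ ≤ Fintype.card H / 4 := by
      rw [div_le_iff₀ hδ]
      refine hS1.trans ?_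
      have : (Fintype.card H : ℝ) / (N + 1) = Fintype.card H * (1 / (N + 1)) := by ring
      rw [this]
      calc (Fintype.card H : ℝ) * (1 / (N + 1)) ≤ Fintype.card H * (δ / 4) :=
            mul_le_mul_of_nonneg_left h1 hcard.le
        _ = Fintype.card H / 4 * δ := by ring
    have h7 : (∑ h : H, P.real (D2 h ∩ E)) / η ≤ Fintype.card H / 4 := by
      rw [div_le_iff₀ hη]
      refine hS2.trans ?_
      calc ((N : ℝ) / (N + 1)) ^ q * Fintype.card H ≤ η / 4 * Fintype.card H :=
            mul_le_mul_of_nonneg_right h2 hcard.le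
        _ = Fintype.card H / 4 * η := by ring
    linarith
  refine ⟨Finset.univ.filter fun w => h w = 0, ?_, ?_⟩
  · have : {x | z x ∈ Finset.univ.filter fun w => h w = 0} = D1 h := by
      ext x
      simp [hD1]
    rw [this]
    exact hh.1
  · have h3 : E ⊆ {x | ∃ n ∈ T, y n x ∈ Finset.univ.filter fun w => h w = 0} ∪ (D2 h ∩ E) := by
      intro x hx
      by_cases h4 : ∃ n ∈ T, y n x ∈ Finset.univ.filter fun w => h w = 0
      · exact Or.inl h4
      · refine Or.inr ⟨?_, hx⟩
        push Not at h4
        intro n hn h5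
        exact h4 n hn (Finset.mem_filter.2 ⟨Finset.mem_univ _, h5⟩)
    have h4 : P.real E ≤ P.real {x | ∃ n ∈ T, y n x ∈ Finset.univ.filter fun w => h w = 0} +
        P.real (D2 h ∩ E) := (measureReal_mono h3).trans (measureReal_union_le _ _)
    linarith [hh.2]

end averaging

section distinct
variable {y : ℕ → ℕ → Bool} {z : ℕ → Bool}

/-- a sequence of sequences that converges to `z` and differs from `z` infinitely often takes
many values, and they are distinguished by finitely many coordinates -/
lemma many (h1 : ∀ i, ∀ᶠ n in atTop, y n i = z i) (h2 : ∃ᶠ n in atTop, y n ≠ z) (k q : ℕ) :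
    ∀ᶠ L in atTop, q ≤ ((Finset.Icc k L).image fun n => fun i : Fin L => y n i).card := by
  have key : ∃ T : Finset ℕ, T.card = q ∧ (∀ n ∈ T, k ≤ n ∧ y n ≠ z) ∧
      ∀ n ∈ T, ∀ n' ∈ T, n ≠ n' → y n ≠ y n' := by
    induction q with
    | zero => exact ⟨∅, rfl, by simp, by simp⟩
    | succ q ih =>
      obtain ⟨T, hT1, hT2, hT3⟩ := ih
      have h3 : ∀ᶠ n in atTop, ∀ t ∈ T, y n ≠ y t := by
        rw [Filter.eventually_all_finset]
        intro t ht
        obtain ⟨i, hi⟩ := Function.ne_iff.1 (hT2 t ht).2
        filter_upwards [h1 i] with n hn he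
        rw [he] at hn
        exact hi hn
      obtain ⟨n, hn1, hn2, hn3⟩ := (h2.and_eventually (h3.and (eventually_ge_atTop k))).exists
      have hnT : n ∉ T := fun h => hn2 n h rfl
      refine ⟨insert n T, by rw [Finset.card_insert_of_notMem hnT, hT1], ?_, ?_⟩
      · intro t ht
        rw [Finset.mem_insert] at ht
        rcases ht with rfl | ht
        · exact ⟨hn3, hn1⟩
        · exact hT2 t ht
      · intro t ht t' ht' hne
        rw [Finset.mem_insert] at ht ht'
        rcases ht with rfl | ht
        · rcases ht' with rfl | ht'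
          · exact absurd rfl hne
          · exact hn2 t' ht'
        · rcases ht' with rfl | ht'
          · exact (hn2 t ht).symm
          · exact hT3 t ht t' ht' hne
  obtain ⟨T, hT1, hT2, hT3⟩ := key
  have h4 : ∀ᶠ L in atTop, ∀ t ∈ T, t ≤ L := by
    rw [Filter.eventually_all_finset]
    intro t _
    exact eventually_ge_atTop t
  have h5 : ∀ᶠ L in atTop, ∀ t ∈ T, ∀ t' ∈ T,
      (fun i : Fin L => y t i) = (fun i : Fin L => y t' i) → t = t' := by
    rw [Filter.eventually_all_finset]
    intro t ht
    rw [Filter.eventually_all_finset]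
    intro t' ht'
    by_cases hne : t = t'
    · exact Eventually.of_forall fun _ _ => hne
    · obtain ⟨i, hi⟩ := Function.ne_iff.1 (hT3 t ht t' ht' hne)
      filter_upwards [eventually_gt_atTop i] with L hL he
      exact absurd (congrFun he ⟨i, hL⟩) hi
  filter_upwards [h4, h5] with L hL1 hL2
  calc q = T.card := hT1.symm
    _ = (T.image fun n => fun i : Fin L => y n i).card := by
        rw [Finset.card_image_of_injOn]
        intro t ht t' ht' he
        exact hL2 t ht t' ht' he
    _ ≤ _ := by
        refine Finset.card_le_card (Finset.image_subset_image ?_)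
        intro t ht
        exact Finset.mem_Icc.2 ⟨(hT2 t ht).1, hL1 t ht⟩

end distinct

end Pool.Agent.X185.GR
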