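import Pool.Agent.X185.GR.Hash

set_option autoImplicit false
set_option linter.unusedSectionVars false
set_option linter.unusedVariables false
set_option linter.unusedSimpArgs false

namespace Pool.Agent.X185.GR

open Filter Topology MeasureTheory
open scoped Classical

variable {A : Type*} [BooleanAlgebra A] {Ω : Type*} [MeasurableSpace Ω]

/-- `φ` represents a homomorphism from `A` to the measure algebra of `P`: it assigns to every
element of `A` a measurable set, and respects the operations up to null sets. -/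
structure IsHom (P : Measure Ω) (φ : A → Set Ω) : Prop where
  meas : ∀ a, MeasurableSet (φ a)
  inf : ∀ a b, φ (a ⊓ b) =ᵐ[P] (φ a ∩ φ b : Set Ω)
  compl : ∀ a, φ aᶜ =ᵐ[P] (φ a)ᶜ

/-- pointwise algebraic convergence -/
def AlgTendsto (P : Measure Ω) (φ : ℕ → A → Set Ω) (ψ : A → Set Ω) : Prop :=
  ∀ a, (⋃ n, ⋂ m, ⋂ (_ : n < m), φ m a) =ᵐ[P] ψ a ∧
    (⋂ n, ⋃ m, ⋃ (_ : n < m), φ m a) =ᵐ[P] ψ a

/-- uniform convergence -/
def UnifTendsto (P : Measure Ω) (φ : ℕ → A → Set Ω) (ψ : A → Set Ω) : Prop :=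
  ∀ ε : ℝ, 0 < ε → ∀ᶠ n in atTop, ∀ a, P.real (symmDiff (φ n a) (ψ a)) ≤ ε

variable {P : Measure Ω} {φ : A → Set Ω}

lemma IsHom.ae_inf (h : IsHom P φ) (a b : A) : ∀ᵐ x ∂P, x ∈ φ (a ⊓ b) ↔ x ∈ φ a ∧ x ∈ φ b :=
  Filter.eventuallyEq_set.1 (h.inf a b)

lemma IsHom.ae_compl (h : IsHom P φ) (a : A) : ∀ᵐ x ∂P, x ∈ φ aᶜ ↔ x ∉ φ a :=
  Filter.eventuallyEq_set.1 (h.compl a)

lemma IsHom.ae_bot (h : IsHom P φ) : ∀ᵐ x ∂P, x ∉ φ ⊥ := by
  filter_upwards [h.ae_inf ⊥ ⊥ᶜ, h.ae_compl ⊥] with x h1 h2 hx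
  rw [inf_compl_self] at h1
  exact (h2.1 (h1.1 hx).2) hx

lemma IsHom.ae_top (h : IsHom P φ) : ∀ᵐ x ∂P, x ∈ φ ⊤ := by
  filter_upwards [h.ae_bot, h.ae_compl ⊥] with x h1 h2
  rw [compl_bot] at h2
  exact h2.2 h1

lemma IsHom.ae_sup (h : IsHom P φ) (a b : A) :
    ∀ᵐ x ∂P, x ∈ φ (a ⊔ b) ↔ x ∈ φ a ∨ x ∈ φ b := by
  filter_upwards [h.ae_inf aᶜ bᶜ, h.ae_compl a, h.ae_compl b, h.ae_compl (aᶜ ⊓ bᶜ)]
    with x h1 h2 h3 h4
  rw [compl_inf, compl_compl, compl_compl] at h4
  rw [h4, h1, h2, h3]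
  tauto

lemma IsHom.ae_finset_inf {ι : Type*} (h : IsHom P φ) (s : Finset ι) (u : ι → A) :
    ∀ᵐ x ∂P, x ∈ φ (s.inf u) ↔ ∀ i ∈ s, x ∈ φ (u i) := by
  induction s using Finset.induction_on with
  | empty =>
    filter_upwards [h.ae_top] with x hx
    simp [hx]
  | insert i s hi ih =>
    filter_upwards [ih, h.ae_inf (u i) (s.inf u)] with x h1 h2
    rw [Finset.inf_insert, h2, h1]
    simp

lemma IsHom.ae_finset_sup {ι : Type*} (h : IsHom P φ) (s : Finset ι) (u : ι → A) :
    ∀ᵐ x ∂P, x ∈ φ (s.sup u) ↔ ∃ i ∈ s, x ∈ φ (u i) := by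
  induction s using Finset.induction_on with
  | empty =>
    filter_upwards [h.ae_bot] with x hx
    simp [hx]
  | insert i s hi ih =>
    filter_upwards [ih, h.ae_sup (u i) (s.sup u)] with x h1 h2
    rw [Finset.sup_insert, h2, h1]
    simp

/-- the first `L` bits of the trace of `x` on the sequence `a` -/
noncomputable def word (φ : A → Set Ω) (a : ℕ → A) (L : ℕ) (x : Ω) : Fin L → Bool :=
  fun i => decide (x ∈ φ (a i))

/-- an element or its complement -/
def lit (b : A) (s : Bool) : A := if s then b else bᶜ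

/-- the element of the algebra coded by a word -/
def elt (a : ℕ → A) (L : ℕ) (w : Fin L → Bool) : A :=
  Finset.univ.inf fun i : Fin L => lit (a i) (w i)

lemma IsHom.ae_lit (h : IsHom P φ) (b : A) (s : Bool) :
    ∀ᵐ x ∂P, x ∈ φ (lit b s) ↔ decide (x ∈ φ b) = s := by
  cases s
  · filter_upwards [h.ae_compl b] with x hx
    unfold lit
    simp [hx]
  · refine Eventually.of_forall fun x => ?_
    unfold lit
    simp

lemma IsHom.ae_elt (h : IsHom P φ) (a : ℕ → A) (L : ℕ) (w : Fin L → Bool) :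
    ∀ᵐ x ∂P, x ∈ φ (elt a L w) ↔ word φ a L x = w := by
  have h1 : ∀ᵐ x ∂P, ∀ i : Fin L, x ∈ φ (lit (a i) (w i)) ↔ decide (x ∈ φ (a i)) = w i :=
    ae_all_iff.2 fun i => h.ae_lit _ _
  filter_upwards [h1, h.ae_finset_inf Finset.univ fun i : Fin L => lit (a i) (w i)] with x h2 h3
  unfold elt
  rw [h3]
  constructor
  · intro h4
    funext i
    exact (h2 i).1 (h4 i (Finset.mem_univ _))
  · intro h4 i _
    exact (h2 i).2 (congrFun h4 i)

lemma IsHom.ae_rep (h : IsHom P φ) (a : ℕ → A) (L : ℕ) (R : Finset (Fin L → Bool)) :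
    ∀ᵐ x ∂P, x ∈ φ (R.sup (elt a L)) ↔ word φ a L x ∈ R := by
  have h1 : ∀ᵐ x ∂P, ∀ w : Fin L → Bool, x ∈ φ (elt a L w) ↔ word φ a L x = w :=
    ae_all_iff.2 fun w => h.ae_elt _ _ _
  filter_upwards [h1, h.ae_finset_sup R (elt a L)] with x h2 h3
  rw [h3]
  constructor
  · rintro ⟨w, hw, hx⟩
    rw [(h2 w).1 hx]
    exact hw
  · intro hw
    exact ⟨_, hw, (h2 _).2 rfl⟩

lemma IsHom.measurable_word (h : IsHom P φ) (a : ℕ → A) (L : ℕ) : Measurable (word φ a L) := by
  refine measurable_pi_lambda _ fun i => ?_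
  refine measurable_to_bool ?_
  have : (fun x => word φ a L x i) ⁻¹' {true} = φ (a i) := by
    ext x
    simp [word]
  rw [this]
  exact h.meas _

section index
variable {φ : ℕ → A → Set Ω} {ψ : A → Set Ω}

lemma meas_index (hφ : ∀ n, IsHom P (φ n)) {g : Ω → ℕ} (hg : Measurable g) (a : A) :
    MeasurableSet {x | x ∈ φ (g x) a} := by
  have : {x | x ∈ φ (g x) a} = ⋃ n, (g ⁻¹' {n} ∩ φ n a) := by
    ext x
    simp
  rw [this]
  exact MeasurableSet.iUnion fun n => (hg (measurableSet_singleton n)).inter ((hφ n).meas a)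

/-- a random index gives a positive functional -/
theorem index_functional [IsProbabilityMeasure P] (hφ : ∀ n, IsHom P (φ n)) {g : Ω → ℕ}
    (hg : Measurable g) : ∃ F : StrongDual ℝ C(St A, ℝ),
      (∀ a, F (ind a) = P.real {x | x ∈ φ (g x) a}) ∧ ‖F‖ ≤ 1 ∧ ∀ f, 0 ≤ f → 0 ≤ F f := by
  obtain ⟨F, h1, h2, h3⟩ := exists_functional (A := A)
    (m := fun a => P.real {x | x ∈ φ (g x) a}) (fun a => measureReal_nonneg) (by
      intro a b hab
      have e1 : ∀ᵐ x ∂P, ∀ n, x ∈ φ n (a ⊔ b) ↔ x ∈ φ n a ∨ x ∈ φ n b :=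
        ae_all_iff.2 fun n => (hφ n).ae_sup a b
      have e2 : ∀ᵐ x ∂P, ∀ n, ¬ (x ∈ φ n a ∧ x ∈ φ n b) := by
        refine ae_all_iff.2 fun n => ?_
        filter_upwards [(hφ n).ae_inf a b, (hφ n).ae_bot] with x k1 k2 k3
        rw [hab] at k1
        exact k2 (k1.2 k3)
      have e3 : P.real {x | x ∈ φ (g x) (a ⊔ b)} =
          P.real ({x | x ∈ φ (g x) a} ∪ {x | x ∈ φ (g x) b}) := by
        refine measureReal_congr (Filter.eventuallyEq_set.2 ?_)
        filter_upwards [e1] with x hx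
        exact hx (g x)
      have e4 : P.real ({x | x ∈ φ (g x) a} ∩ {x | x ∈ φ (g x) b}) = 0 := by
        have : ({x | x ∈ φ (g x) a} ∩ {x | x ∈ φ (g x) b} : Set Ω) =ᵐ[P] (∅ : Set Ω) := by
          refine Filter.eventuallyEq_set.2 ?_
          filter_upwards [e2] with x hx
          constructor
          · intro h
            exact hx (g x) h
          · intro h
            exact absurd h (Set.notMem_empty x)
        rw [measureReal_congr this]
        simp
      have e5 := measureReal_union_add_inter (μ := P) (s := {x | x ∈ φ (g x) a})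
        (t := {x | x ∈ φ (g x) b}) (meas_index hφ hg b)
      linarith)
  exact ⟨F, h1, h2.trans measureReal_le_one, h3⟩

lemma AlgTendsto.ae (h : AlgTendsto P φ ψ) (a : A) :
    ∀ᵐ x ∂P, ∀ᶠ n in atTop, (x ∈ φ n a ↔ x ∈ ψ a) := by
  filter_upwards [Filter.eventuallyEq_set.1 (h a).1, Filter.eventuallyEq_set.1 (h a).2]
    with x h1 h2
  simp only [Set.mem_iUnion, Set.mem_iInter] at h1 h2
  by_cases hx : x ∈ ψ a
  · obtain ⟨N, hN⟩ := h1.2 hx
    filter_upwards [eventually_gt_atTop N] with n hn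
    exact ⟨fun _ => hx, fun _ => hN n hn⟩
  · have h3 := mt h2.1 hx
    push Not at h3
    obtain ⟨N, hN⟩ := h3
    filter_upwards [eventually_gt_atTop N] with n hn
    exact ⟨fun h4 => absurd h4 (hN n hn), fun h4 => absurd h4 hx⟩

/-- the tails of the symmetric differences are small -/
lemma tail_small [IsProbabilityMeasure P] (hφ : ∀ n, IsHom P (φ n)) (hψ : IsHom P ψ)
    (h : AlgTendsto P φ ψ) (a : A) :
    Tendsto (fun k => P.real (⋃ n, ⋃ (_ : k ≤ n), symmDiff (φ n a) (ψ a))) atTop (𝓝 0) := by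
  have hmeas : ∀ n, MeasurableSet (symmDiff (φ n a) (ψ a)) := fun n =>
    ((hφ n).meas a).symmDiff (hψ.meas a)
  have hm : ∀ k, MeasurableSet (⋃ n, ⋃ (_ : k ≤ n), symmDiff (φ n a) (ψ a)) := fun k =>
    MeasurableSet.iUnion fun n => MeasurableSet.iUnion fun _ => hmeas n
  have h1 : P (⋂ k, ⋃ n, ⋃ (_ : k ≤ n), symmDiff (φ n a) (ψ a)) = 0 := by
    have : (⋂ k, ⋃ n, ⋃ (_ : k ≤ n), symmDiff (φ n a) (ψ a) : Set Ω) =ᵐ[P] (∅ : Set Ω) := by
      refine Filter.eventuallyEq_set.2 ?_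
      filter_upwards [h.ae a] with x hx
      constructor
      · intro hx2
        obtain ⟨N, hN⟩ := eventually_atTop.1 hx
        rw [Set.mem_iInter] at hx2
        have := hx2 N
        simp only [Set.mem_iUnion] at this
        obtain ⟨n, hn, hx3⟩ := this
        rw [Set.mem_symmDiff] at hx3
        have := hN n hn
        tauto
      · intro h
        exact absurd h (Set.notMem_empty x)
    rw [measure_congr this, measure_empty]
  have h2 := tendsto_measure_iInter_atTop (μ := P)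
    (s := fun k => ⋃ n, ⋃ (_ : k ≤ n), symmDiff (φ n a) (ψ a))
    (fun k => (hm k).nullMeasurableSet)
    (by
      intro k l hkl x hx
      simp only [Set.mem_iUnion] at hx ⊢
      obtain ⟨n, hn, hx⟩ := hx
      exact ⟨n, hkl.trans hn, hx⟩)
    ⟨0, measure_ne_top _ _⟩
  rw [h1] at h2
  have h3 := (ENNReal.tendsto_toReal ENNReal.zero_ne_top).comp h2
  simpa [measureReal_def, Function.comp_def] using h3

lemma index_tendsto [IsProbabilityMeasure P] (hφ : ∀ n, IsHom P (φ n)) (hψ : IsHom P ψ)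
    (h : AlgTendsto P φ ψ) {g : ℕ → Ω → ℕ} (hgk : ∀ k x, k ≤ g k x)
    (a : A) : Tendsto (fun k => P.real {x | x ∈ φ (g k x) a}) atTop (𝓝 (P.real (ψ a))) := by
  have h1 := tail_small hφ hψ h a
  rw [tendsto_iff_dist_tendsto_zero]
  refine squeeze_zero (fun _ => dist_nonneg) ?_ h1
  intro k
  rw [Real.dist_eq, abs_le]
  have h2 : ∀ x, x ∉ (⋃ n, ⋃ (_ : k ≤ n), symmDiff (φ n a) (ψ a)) →
      (x ∈ φ (g k x) a ↔ x ∈ ψ a) := by
    intro x hx
    simp only [Set.mem_iUnion, not_exists] at hx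
    have := hx (g k x) (hgk k x)
    rw [Set.mem_symmDiff] at this
    tauto
  have h3 : P.real {x | x ∈ φ (g k x) a} ≤ P.real (ψ a) +
      P.real (⋃ n, ⋃ (_ : k ≤ n), symmDiff (φ n a) (ψ a)) := by
    refine (measureReal_mono ?_).trans (measureReal_union_le _ _)
    intro x hx
    by_cases hx2 : x ∈ (⋃ n, ⋃ (_ : k ≤ n), symmDiff (φ n a) (ψ a))
    · exact Or.inr hx2
    · exact Or.inl ((h2 x hx2).1 hx)
  have h4 : P.real (ψ a) ≤ P.real {x | x ∈ φ (g k x) a} +
      P.real (⋃ n, ⋃ (_ : k ≤ n), symmDiff (φ n a) (ψ a)) := by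
    refine (measureReal_mono ?_).trans (measureReal_union_le _ _)
    intro x hx
    by_cases hx2 : x ∈ (⋃ n, ⋃ (_ : k ≤ n), symmDiff (φ n a) (ψ a))
    · exact Or.inr hx2
    · exact Or.inl ((h2 x hx2).2 hx)
  constructor <;> linarith

end index

section main
variable {φ : ℕ → A → Set Ω} {ψ : A → Set Ω}

/-- the maximal inequality fails without uniform convergence -/
theorem bad_sets [IsProbabilityMeasure P] (hφ : ∀ n, IsHom P (φ n)) (hψ : IsHom P ψ)
    (h : AlgTendsto P φ ψ) {ε : ℝ} (hε : 0 < ε) (a : ℕ → A)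
    (hbad : ∃ᶠ n in atTop, ε < P.real (symmDiff (φ n (a n)) (ψ (a n)))) (k : ℕ) {δ : ℝ}
    (hδ : 0 < δ) :
    ∃ (L : ℕ) (R : Finset (Fin L → Bool)), P.real {x | word ψ a L x ∈ R} ≤ δ ∧
      ε / 2 ≤ P.real {x | ∃ n ∈ Finset.Icc k L, word (φ n) a L x ∈ R} := by
  have hmeas : ∀ n, MeasurableSet (symmDiff (φ n (a n)) (ψ (a n))) := fun n =>
    ((hφ n).meas _).symmDiff (hψ.meas _)
  set B : ℕ → Set Ω := fun N => ⋃ n, ⋃ (_ : N ≤ n), symmDiff (φ n (a n)) (ψ (a n)) with hB
  have hBm : ∀ N, MeasurableSet (B N) := fun N =>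
    MeasurableSet.iUnion fun n => MeasurableSet.iUnion fun _ => hmeas n
  have hBanti : Antitone B := by
    intro k l hkl x hx
    simp only [hB, Set.mem_iUnion] at hx ⊢
    obtain ⟨n, hn, hx⟩ := hx
    exact ⟨n, hkl.trans hn, hx⟩
  have hBN : ∀ N, ε ≤ P.real (B N) := by
    intro N
    obtain ⟨n, hn1, hn2⟩ := (hbad.and_eventually (eventually_ge_atTop N)).exists
    refine hn1.le.trans (measureReal_mono ?_ (measure_ne_top _ _))
    intro x hx
    simp only [hB, Set.mem_iUnion]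
    exact ⟨n, hn2, hx⟩
  have hBlim := tendsto_measure_iInter_atTop (μ := P) (s := B)
    (fun k => (hBm k).nullMeasurableSet) hBanti ⟨0, measure_ne_top _ _⟩
  have hBlim' : Tendsto (fun N => P.real (B N)) atTop (𝓝 (P.real (⋂ N, B N))) :=
    (ENNReal.tendsto_toReal (measure_ne_top P (⋂ N, B N))).comp hBlim
  have hBinf : ε ≤ P.real (⋂ N, B N) := ge_of_tendsto' hBlim' hBN
  -- number of values
  obtain ⟨N, hN⟩ : ∃ N : ℕ, 1 / ((N : ℝ) + 1) ≤ δ / 4 := by
    obtain ⟨N, hN⟩ := exists_nat_one_div_lt (show 0 < δ / 4 by linarith)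
    exact ⟨N, hN.le⟩
  obtain ⟨q, hq⟩ : ∃ q : ℕ, ((N : ℝ) / (N + 1)) ^ q ≤ ε / 4 / 4 := by
    have : ((N : ℝ) / (N + 1)) < 1 := by
      rw [div_lt_one (by positivity)]
      linarith
    obtain ⟨q, hq⟩ := exists_pow_lt_of_lt_one (show 0 < ε / 4 / 4 by linarith) this
    exact ⟨q, hq.le⟩
  set E : ℕ → Set Ω := fun L =>
    {x | q ≤ ((Finset.Icc k L).image fun n => word (φ n) a L x).card} with hE
  have hEm : ∀ L, MeasurableSet (E L) := by
    intro L
    have h1 : Measurable fun x => (fun n : Fin (L + 1) => word (φ n) a L x) :=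
      measurable_pi_lambda _ fun n => (hφ n).measurable_word a L
    have h2 : E L = (fun x => (fun n : Fin (L + 1) => word (φ n) a L x)) ⁻¹'
        {u | q ≤ ((Finset.univ.filter fun n : Fin (L + 1) => k ≤ (n : ℕ)).image u).card} := by
      ext x
      have h3 : ((Finset.Icc k L).image fun n => word (φ n) a L x) =
          ((Finset.univ.filter fun n : Fin (L + 1) => k ≤ (n : ℕ)).image
            fun n : Fin (L + 1) => word (φ n) a L x) := by
        ext w
        simp only [Finset.mem_image, Finset.mem_Icc, Finset.mem_filter, Finset.mem_univ, true_and]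
        constructor
        · rintro ⟨n, ⟨h4, h5⟩, h6⟩
          exact ⟨⟨n, by omega⟩, h4, h6⟩
        · rintro ⟨n, h4, h6⟩
          exact ⟨n, ⟨h4, by omega⟩, h6⟩
      change q ≤ _ ↔ q ≤ _
      rw [h3]
    rw [h2]
    exact h1 (Set.toFinite _).measurableSet
  have hev : ∀ᵐ x ∂P, x ∈ (⋂ N, B N) → ∀ᶠ L in atTop, x ∈ E L := by
    have h1 : ∀ᵐ x ∂P, ∀ i, ∀ᶠ n in atTop, (x ∈ φ n (a i) ↔ x ∈ ψ (a i)) :=
      ae_all_iff.2 fun i => h.ae (a i)
    filter_upwards [h1] with x hx hxB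
    refine many (y := fun n i => decide (x ∈ φ n (a i))) (z := fun i => decide (x ∈ ψ (a i)))
      ?_ ?_ k q
    · intro i
      filter_upwards [hx i] with n hn
      simp only [hn]
    · rw [frequently_atTop]
      intro M
      rw [Set.mem_iInter] at hxB
      have h2 := hxB M
      simp only [hB, Set.mem_iUnion] at h2
      obtain ⟨n, hn, h3⟩ := h2
      refine ⟨n, hn, fun h4 => ?_⟩
      have h5 := congrFun h4 n
      simp only [decide_eq_decide] at h5
      rw [Set.mem_symmDiff] at h3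
      tauto
  -- some level is good
  obtain ⟨L, hL⟩ : ∃ L, 3 * ε / 4 ≤ P.real (E L) := by
    set G : ℕ → Set Ω := fun L => ⋂ L', ⋂ (_ : L ≤ L'), E L' with hG
    have hGmono : Monotone G := by
      intro k l hkl x hx
      simp only [hG, Set.mem_iInter] at hx ⊢
      intro L' hL'
      exact hx L' (hkl.trans hL')
    have h1 := tendsto_measure_iUnion_atTop (μ := P) hGmono
    have h1' : Tendsto (fun N => P.real (G N)) atTop (𝓝 (P.real (⋃ N, G N))) :=
      (ENNReal.tendsto_toReal (measure_ne_top P (⋃ N, G N))).comp h1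
    have h2 : ε ≤ P.real (⋃ N, G N) := by
      refine hBinf.trans (ENNReal.toReal_mono (measure_ne_top _ _) (measure_mono_ae ?_))
      filter_upwards [hev] with x hx hxB
      obtain ⟨L, hL⟩ := eventually_atTop.1 (hx hxB)
      refine Set.mem_iUnion.2 ⟨L, ?_⟩
      simp only [hG, Set.mem_iInter]
      exact hL
    have h3 : ∀ᶠ N in atTop, 3 * ε / 4 < P.real (G N) :=
      h1'.eventually (lt_mem_nhds (by linarith))
    obtain ⟨L, hL⟩ := h3.exists
    refine ⟨L, hL.le.trans (measureReal_mono ?_)⟩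
    intro x hx
    simp only [hG, Set.mem_iInter] at hx
    exact hx L le_rfl
  obtain ⟨R, hR1, hR2⟩ := hash (P := P) (word ψ a L) (hψ.measurable_word a L)
    (fun n => word (φ n) a L) (fun n => (hφ n).measurable_word a L) (Finset.Icc k L) (E L) (hEm L)
    q N (fun x hx => by
      have hx' : q ≤ ((Finset.Icc k L).image fun n => word (φ n) a L x).card := by
        simpa [hE] using hx
      refine hx'.trans (le_of_eq (congrArg Finset.card ?_))
      ext w
      simp only [Finset.mem_image]) hδ (show 0 < ε / 4 by linarith) hN hq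
  exact ⟨L, R, hR1, by linarith⟩

theorem main [IsProbabilityMeasure P] (hA : PosGrothendieck A) (hφ : ∀ n, IsHom P (φ n))
    (hψ : IsHom P ψ) (h : AlgTendsto P φ ψ) : UnifTendsto P φ ψ := by
  by_contra hcon
  unfold UnifTendsto at hcon
  push Not at hcon
  obtain ⟨ε, hε, hbad⟩ := hcon
  obtain ⟨a, ha⟩ : ∃ a : ℕ → A, ∃ᶠ n in atTop, ε < P.real (symmDiff (φ n (a n)) (ψ (a n))) := by
    refine ⟨fun n => if hn : ∃ a, ε < P.real (symmDiff (φ n a) (ψ a)) then hn.choose else ⊥, ?_⟩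
    refine hbad.mono fun n hn => ?_
    simp only [dif_pos hn]
    exact hn.choose_spec
  have hstep := fun k => bad_sets hφ hψ h hε a ha k
    (δ := ε / 4 / 2 ^ (k + 1)) (by positivity)
  choose L R hR1 hR2 using hstep
  -- the random index
  have hex : ∀ k x, ∃ n, k ≤ n ∧ (word (φ n) a (L k) x ∈ R k ∨ L k < n) := fun k x =>
    ⟨max k (L k + 1), le_max_left _ _, Or.inr (by
      have := le_max_right k (L k + 1)
      omega)⟩
  set g : ℕ → Ω → ℕ := fun k x => Nat.find (hex k x) with hg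
  have hgm : ∀ k, Measurable (g k) := by
    intro k
    refine measurable_find (hex k) fun n => ?_
    by_cases h1 : k ≤ n
    · by_cases h2 : L k < n
      · have : {x | k ≤ n ∧ (word (φ n) a (L k) x ∈ R k ∨ L k < n)} = Set.univ := by
          ext x
          simp [h1, h2]
        rw [this]
        exact MeasurableSet.univ
      · have : {x | k ≤ n ∧ (word (φ n) a (L k) x ∈ R k ∨ L k < n)} =
            (word (φ n) a (L k)) ⁻¹' (R k : Set (Fin (L k) → Bool)) := by
          ext x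
          simp [h1, h2]
        rw [this]
        exact (hφ n).measurable_word a (L k) (Set.toFinite _).measurableSet
    · have : {x | k ≤ n ∧ (word (φ n) a (L k) x ∈ R k ∨ L k < n)} = ∅ := by
        ext x
        simp [h1]
      rw [this]
      exact MeasurableSet.empty
  have hgk : ∀ k x, k ≤ g k x := fun k x => (Nat.find_spec (hex k x)).1
  have hghit : ∀ k x, (∃ n ∈ Finset.Icc k (L k), word (φ n) a (L k) x ∈ R k) →
      word (φ (g k x)) a (L k) x ∈ R k := by
    rintro k x ⟨n, hn, hx⟩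
    rw [Finset.mem_Icc] at hn
    have h1 : g k x ≤ n := Nat.find_min' (hex k x) ⟨hn.1, Or.inl hx⟩
    rcases (Nat.find_spec (hex k x)).2 with h2 | h2
    · exact h2
    · exfalso
      have h3 : L k < g k x := h2
      omega
  choose F hF1 hF2 hF3 using fun k => index_functional hφ (hgm k)
  obtain ⟨F₀, hF₀1, hF₀2, hF₀3⟩ := index_functional (φ := fun _ => ψ) (fun _ => hψ)
    (g := fun _ => 0) measurable_const
  have hconv : ∀ f, Tendsto (fun k => F k f) atTop (𝓝 (F₀ f)) := by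
    refine weakstar hF2 hF₀2 fun b => ?_
    rw [hF₀1]
    simp only [hF1]
    exact index_tendsto hφ hψ h hgk b
  set r : ℕ → A := fun k => (R k).sup (elt a (L k)) with hr
  set b : ℕ → A := fun n => (Finset.range (n + 1)).sup r with hb
  have hFr : ∀ k, ε / 2 ≤ F k (ind (r k)) := by
    intro k
    rw [hF1]
    refine (hR2 k).trans (ENNReal.toReal_mono (measure_ne_top _ _) (measure_mono_ae ?_))
    have h1 : ∀ᵐ x ∂P, ∀ n, x ∈ φ n ((R k).sup (elt a (L k))) ↔ word (φ n) a (L k) x ∈ R k :=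
      ae_all_iff.2 fun n => (hφ n).ae_rep a (L k) (R k)
    filter_upwards [h1] with x hx hx2
    exact (hx (g k x)).2 (hghit k x hx2)
  have hind : ∀ {c d : A}, c ≤ d → ind c ≤ ind d := by
    intro c d hcd p
    change ind c p ≤ ind d p
    rw [ind_apply, ind_apply]
    have h1 : c ⊓ d = c := inf_eq_left.2 hcd
    have h2 := p.2.1 c d
    rw [h1] at h2
    revert h2
    cases p.1 c <;> cases p.1 d <;> simp
  have hsup : ∀ c d : A, ind (c ⊔ d) ≤ ind c + ind d := by
    intro c d p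
    change ind (c ⊔ d) p ≤ (ind c + ind d) p
    rw [ContinuousMap.add_apply, ind_apply, ind_apply, ind_apply]
    have h1 : p.1 (c ⊔ d) = (p.1 c || p.1 d) := by
      have h2 := p.2.2 (cᶜ ⊓ dᶜ)
      rw [compl_inf, compl_compl, compl_compl, p.2.1, p.2.2, p.2.2] at h2
      rw [h2]
      cases p.1 c <;> cases p.1 d <;> rfl
    rw [h1]
    cases p.1 c <;> cases p.1 d <;> simp
  have hmono : ∀ (Λ : StrongDual ℝ C(St A, ℝ)), (∀ f, 0 ≤ f → 0 ≤ Λ f) →
      ∀ f f' : C(St A, ℝ), f ≤ f' → Λ f ≤ Λ f' := by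
    intro Λ hΛ f f' hff
    have := hΛ (f' - f) (sub_nonneg.2 hff)
    rw [map_sub] at this
    linarith
  have hF₀r : ∀ k, F₀ (ind (r k)) ≤ ε / 4 / 2 ^ (k + 1) := by
    intro k
    rw [hF₀1]
    refine le_trans (le_of_eq ?_) (hR1 k)
    refine measureReal_congr (Filter.eventuallyEq_set.2 ?_)
    filter_upwards [hψ.ae_rep a (L k) (R k)] with x hx
    exact hx
  have hF₀b : ∀ n, F₀ (ind (b n)) ≤ ∑ k ∈ Finset.range (n + 1), ε / 4 / 2 ^ (k + 1) := by
    intro n
    induction n with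
    | zero =>
      have : b 0 = r 0 := by
        simp [hb]
      rw [this]
      simpa using hF₀r 0
    | succ n ih =>
      have : b (n + 1) = r (n + 1) ⊔ b n := by
        simp only [hb]
        rw [Finset.range_add_one (n := n + 1), Finset.sup_insert]
      rw [this, Finset.sum_range_succ]
      have h1 := hmono F₀ hF₀3 _ _ (hsup (r (n + 1)) (b n))
      rw [map_add] at h1
      have h2 := hF₀r (n + 1)
      linarith
  have hgeo : ∀ n, ∑ k ∈ Finset.range (n + 1), ε / 4 / 2 ^ (k + 1) ≤ ε / 4 := by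
    intro n
    have : ∀ n : ℕ, ∑ k ∈ Finset.range n, ε / 4 / 2 ^ (k + 1) = ε / 4 - ε / 4 / 2 ^ n := by
      intro n
      induction n with
      | zero => simp
      | succ n ih =>
        rw [Finset.sum_range_succ, ih, pow_succ]
        field_simp
        ring
    rw [this]
    have : 0 ≤ ε / 4 / 2 ^ (n + 1) := by positivity
    linarith
  refine WeakStarToWeak.absurd hA hF3 hconv (v := fun n => ind (b n))
    (fun n => norm_ind_le _) (c := ε / 2) (d := ε / 4) (by linarith) ?_ ?_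
  · intro k
    filter_upwards [eventually_ge_atTop k] with n hn
    refine (hFr k).trans (hmono (F k) (hF3 k) _ _ (hind ?_))
    exact Finset.le_sup (f := r) (Finset.mem_range.2 (by omega))
  · exact Eventually.of_forall fun n => (hF₀b n).trans (hgeo n)

end main

end Pool.Agent.X185.GR
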