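import Mathlib

/-!
# Boolean algebras, their Stone spaces and the Grothendieck property
-/

set_option autoImplicit false
set_option linter.unusedSectionVars false
set_option linter.unusedVariables false
set_option linter.unusedSimpArgs false

namespace Pool.Agent.X185.GR

open Filter Topology Set

variable {A : Type*} [BooleanAlgebra A]

/-- The Stone space of a Boolean algebra: the homomorphisms to the two element algebra. -/
def St (A : Type*) [BooleanAlgebra A] : Type _ :=
  {h : A → Bool // (∀ a b, h (a ⊓ b) = (h a && h b)) ∧ ∀ a, h aᶜ = !h a}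

/-- the topology of pointwise convergence -/
instance : TopologicalSpace (St A) := instTopologicalSpaceSubtype

instance : CompactSpace (St A) := by
  refine isCompact_iff_compactSpace.1 (IsClosed.isCompact ?_)
  have h1 : IsClosed {h : A → Bool | ∀ a b, h (a ⊓ b) = (h a && h b)} := by
    rw [Set.ofPred_forall]
    refine isClosed_iInter fun a => ?_
    rw [Set.ofPred_forall]
    refine isClosed_iInter fun b => ?_
    refine isClosed_eq (continuous_apply _) ?_
    exact (continuous_of_discreteTopology (f := fun p : Bool × Bool => p.1 && p.2)).comp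
      ((show Continuous fun h : A → Bool => h a from continuous_apply a).prodMk
        (show Continuous fun h : A → Bool => h b from continuous_apply b))
  have h2 : IsClosed {h : A → Bool | ∀ a, h aᶜ = !h a} := by
    rw [Set.ofPred_forall]
    refine isClosed_iInter fun a => ?_
    refine isClosed_eq (continuous_apply _) ?_
    exact (continuous_of_discreteTopology (f := fun p : Bool => !p)).comp (continuous_apply a)
  exact h1.inter h2

/-- the indicator function of the clopen set defined by an element of the algebra -/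
noncomputable def ind (a : A) : C(St A, ℝ) :=
  ⟨fun h => if h.1 a then 1 else 0,
    (continuous_of_discreteTopology (f := fun b : Bool => if b then (1 : ℝ) else 0)).comp
      ((continuous_apply a).comp continuous_subtype_val)⟩

lemma ind_apply (a : A) (h : St A) : ind a h = if h.1 a then 1 else 0 := rfl

/-- Every weak* convergent sequence, with members in `P`, in the dual of the normed space `E`
converges weakly. -/
def WeakStarToWeak (E : Type*) [NormedAddCommGroup E] [NormedSpace ℝ E]
    (P : StrongDual ℝ E → Prop) : Prop :=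
  ∀ (x : ℕ → StrongDual ℝ E) (y : StrongDual ℝ E), (∀ n, P (x n)) →
    (∀ f, Tendsto (fun n => x n f) atTop (𝓝 (y f))) →
      ∀ F : StrongDual ℝ (StrongDual ℝ E), Tendsto (fun n => F (x n)) atTop (𝓝 (F y))

/-- The Grothendieck property: every weak* convergent sequence in the dual of `C(St A)` converges
weakly. -/
def Grothendieck (A : Type*) [BooleanAlgebra A] : Prop :=
  WeakStarToWeak C(St A, ℝ) fun _ => True

/-- The positive Grothendieck property: every weak* convergent sequence of non-negative functionals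
on `C(St A)` converges weakly. -/
def PosGrothendieck (A : Type*) [BooleanAlgebra A] : Prop :=
  WeakStarToWeak C(St A, ℝ) fun L => ∀ f, 0 ≤ f → 0 ≤ L f

lemma Grothendieck.pos (h : Grothendieck A) : PosGrothendieck A :=
  fun x y _ hxy F => h x y (fun _ => trivial) hxy F

lemma St.bot (h : St A) : h.1 ⊥ = false := by
  have h1 := h.2.1 ⊤ ⊤ᶜ
  rw [h.2.2, inf_compl_self] at h1
  rw [h1]
  cases h.1 ⊤ <;> rfl

lemma St.top (h : St A) : h.1 ⊤ = true := by
  have h1 := h.2.2 ⊥
  rw [compl_bot, h.bot] at h1
  rw [h1]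
  rfl

/-- a nonzero element is contained in an ultrafilter -/
lemma exists_point {e : A} (he : e ≠ ⊥) : ∃ h : St A, h.1 e = true := by
  classical
  have hdisj : Disjoint ((Order.PFilter.principal e : Order.PFilter A) : Set A)
      ((Order.Ideal.principal (⊥ : A) : Order.Ideal A) : Set A) := by
    rw [Set.disjoint_left]
    intro x hx hx2
    have h1 : e ≤ x := Order.PFilter.mem_principal.1 hx
    have h2 : x ≤ ⊥ := Order.Ideal.mem_principal.1 hx2
    exact he (le_bot_iff.1 (h1.trans h2))
  obtain ⟨J, hJ, -, hJ2⟩ := DistribLattice.prime_ideal_of_disjoint_filter_ideal hdisj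
  have heJ : e ∉ J := by
    intro h
    exact (Set.disjoint_left.1 hJ2) (Order.PFilter.mem_principal.2 le_rfl) h
  have hJp : J.IsProper := hJ.toIsProper
  refine ⟨⟨fun b => decide (b ∉ J), ?_, ?_⟩, by simpa using heJ⟩
  · intro a b
    have : (a ⊓ b ∉ J) ↔ (a ∉ J ∧ b ∉ J) := by
      constructor
      · intro h
        exact ⟨fun h1 => h (J.lower inf_le_left h1), fun h1 => h (J.lower inf_le_right h1)⟩
      · rintro ⟨h1, h2⟩ h3
        rcases hJ.mem_or_mem h3 with h | h
        · exact h1 h
        · exact h2 h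
    simp only [this, Bool.decide_and]
  · intro a
    have : (aᶜ ∉ J) ↔ ¬ (a ∉ J) := by
      rw [not_not]
      constructor
      · intro h
        exact hJ.mem_or_compl_mem.resolve_right h
      · intro h h2
        rcases hJp.notMem_or_compl_notMem (x := a) with h3 | h3
        · exact h3 h
        · exact h3 h2
    simp only [this, decide_not]

section functional
variable {m : A → ℝ}

/-- positivity of the integral of simple functions -/
lemma simple_pos (h0 : ∀ a, 0 ≤ m a) (hadd : ∀ a b, a ⊓ b = ⊥ → m (a ⊔ b) = m a + m b)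
    (w : A →₀ ℝ) : ∀ (t : ℝ) (e : A),
      (∀ h : St A, h.1 e = true → t ≤ Finsupp.linearCombination ℝ ind w h) →
        t * m e ≤ Finsupp.linearCombination ℝ (fun b => m (b ⊓ e)) w := by
  have hbot : m ⊥ = 0 := by
    have := hadd ⊥ ⊥ (inf_idem _)
    rw [sup_idem] at this
    linarith
  induction w using Finsupp.induction with
  | zero =>
    intro t e h
    rw [map_zero]
    by_cases he : e = ⊥
    · rw [he, hbot, mul_zero]
    · obtain ⟨p, hp⟩ := exists_point he
      have h1 := h p hp
      rw [map_zero] at h1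
      have h2 : t ≤ 0 := h1
      exact mul_nonpos_of_nonpos_of_nonneg h2 (h0 e)
  | single_add a c w ha hc ih =>
    intro t e h
    have h1 := ih (t - c) (e ⊓ a) ?_
    · have h2 := ih t (e ⊓ aᶜ) ?_
      · have e1 : ∀ b, m (b ⊓ e) = m (b ⊓ (e ⊓ a)) + m (b ⊓ (e ⊓ aᶜ)) := by
          intro b
          rw [← hadd]
          · congr 1
            rw [← inf_sup_left, ← inf_sup_left, sup_compl_eq_top, inf_top_eq]
          · have : b ⊓ (e ⊓ a) ⊓ (b ⊓ (e ⊓ aᶜ)) ≤ a ⊓ aᶜ :=
              le_inf (inf_le_left.trans (inf_le_right.trans inf_le_right))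
                (inf_le_right.trans (inf_le_right.trans inf_le_right))
            rw [inf_compl_self] at this
            exact le_bot_iff.1 this
        have e2 : m e = m (e ⊓ a) + m (e ⊓ aᶜ) := by
          have := e1 ⊤
          simpa using this
        have e3 : Finsupp.linearCombination ℝ (fun b => m (b ⊓ e)) w =
            Finsupp.linearCombination ℝ (fun b => m (b ⊓ (e ⊓ a))) w +
              Finsupp.linearCombination ℝ (fun b => m (b ⊓ (e ⊓ aᶜ))) w := by
          rw [Finsupp.linearCombination_apply, Finsupp.linearCombination_apply,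
            Finsupp.linearCombination_apply, ← Finsupp.sum_add]
          refine Finsupp.sum_congr fun b _ => ?_
          rw [e1 b, smul_add]
        rw [map_add, Finsupp.linearCombination_single, e3, e2, inf_comm a e]
        simp only [smul_eq_mul]
        linarith
      · intro p hp
        have h3 : p.1 e = true ∧ p.1 a = false := by
          rw [p.2.1, p.2.2] at hp
          revert hp
          cases p.1 e <;> cases p.1 a <;> simp
        have h4 := h p h3.1
        rw [map_add, Finsupp.linearCombination_single, ContinuousMap.add_apply,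
          ContinuousMap.smul_apply, ind_apply, h3.2] at h4
        simpa using h4
    · intro p hp
      have h3 : p.1 e = true ∧ p.1 a = true := by
        rw [p.2.1] at hp
        revert hp
        cases p.1 e <;> cases p.1 a <;> simp
      have h4 := h p h3.1
      rw [map_add, Finsupp.linearCombination_single, ContinuousMap.add_apply,
        ContinuousMap.smul_apply, ind_apply, h3.2] at h4
      simp only [if_true, smul_eq_mul, mul_one] at h4
      linarith

lemma simple_bound (h0 : ∀ a, 0 ≤ m a) (hadd : ∀ a b, a ⊓ b = ⊥ → m (a ⊔ b) = m a + m b)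
    (w : A →₀ ℝ) : |Finsupp.linearCombination ℝ m w| ≤
      m ⊤ * ‖Finsupp.linearCombination ℝ (ind (A := A)) w‖ := by
  have key : ∀ w : A →₀ ℝ, -(m ⊤ * ‖Finsupp.linearCombination ℝ (ind (A := A)) w‖) ≤
      Finsupp.linearCombination ℝ m w := by
    intro w
    have h1 := simple_pos h0 hadd w (-‖Finsupp.linearCombination ℝ (ind (A := A)) w‖) ⊤ ?_
    · have e1 : (fun b : A => m (b ⊓ ⊤)) = m := by
        funext b
        rw [inf_top_eq]
      rw [e1] at h1
      linarith
    · intro p _
      have := (Finsupp.linearCombination ℝ (ind (A := A)) w).norm_coe_le_norm p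
      rw [Real.norm_eq_abs] at this
      exact (abs_le.1 this).1
  rw [abs_le]
  refine ⟨key w, ?_⟩
  have := key (-w)
  rw [map_neg, map_neg, norm_neg] at this
  linarith

/-- a finitely additive measure on a Boolean algebra gives a positive functional -/
theorem exists_functional (h0 : ∀ a, 0 ≤ m a)
    (hadd : ∀ a b, a ⊓ b = ⊥ → m (a ⊔ b) = m a + m b) :
    ∃ L : StrongDual ℝ C(St A, ℝ), (∀ a, L (ind a) = m a) ∧ ‖L‖ ≤ m ⊤ ∧
      ∀ f, 0 ≤ f → 0 ≤ L f := by
  set T : (A →₀ ℝ) →ₗ[ℝ] C(St A, ℝ) := Finsupp.linearCombination ℝ ind with hT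
  set I : (A →₀ ℝ) →ₗ[ℝ] ℝ := Finsupp.linearCombination ℝ m with hI
  have hb : ∀ w, |I w| ≤ m ⊤ * ‖T w‖ := simple_bound h0 hadd
  have hker : LinearMap.ker T ≤ LinearMap.ker I := by
    intro w hw
    rw [LinearMap.mem_ker] at hw ⊢
    have := hb w
    rw [hw, norm_zero, mul_zero] at this
    exact abs_nonpos_iff.1 this
  set g : LinearMap.range T →ₗ[ℝ] ℝ :=
    ((LinearMap.ker T).liftQ I hker).comp
      (T.quotKerEquivRange.symm : LinearMap.range T →ₗ[ℝ] (A →₀ ℝ) ⧸ LinearMap.ker T) with hg
  have hgT : ∀ w, g ⟨T w, LinearMap.mem_range_self T w⟩ = I w := by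
    intro w
    rw [hg, LinearMap.comp_apply]
    have : (T.quotKerEquivRange.symm : LinearMap.range T →ₗ[ℝ] (A →₀ ℝ) ⧸ LinearMap.ker T)
        ⟨T w, LinearMap.mem_range_self T w⟩ = (LinearMap.ker T).mkQ w := by
      rw [LinearEquiv.coe_coe, LinearEquiv.symm_apply_eq]
      rfl
    rw [this]
    rfl
  have hgb : ∀ v : LinearMap.range T, ‖g v‖ ≤ m ⊤ * ‖v‖ := by
    rintro ⟨v, w, rfl⟩
    rw [hgT w, Real.norm_eq_abs]
    exact hb w
  obtain ⟨L, hL1, hL2⟩ := exists_extension_norm_eq (LinearMap.range T) (g.mkContinuous _ hgb)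
  have hLind : ∀ a, L (ind a) = m a := by
    intro a
    have e1 : T (Finsupp.single a 1) = ind a := by
      rw [hT, Finsupp.linearCombination_single, one_smul]
    have h1 := hL1 ⟨T (Finsupp.single a 1), LinearMap.mem_range_self _ _⟩
    have h2 : (g.mkContinuous _ hgb) ⟨T (Finsupp.single a 1), LinearMap.mem_range_self _ _⟩ =
        I (Finsupp.single a 1) := hgT _
    rw [h2] at h1
    change L (T (Finsupp.single a 1)) = _ at h1
    rw [e1] at h1
    rw [h1, hI, Finsupp.linearCombination_single, one_smul]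
  have hLn : ‖L‖ ≤ m ⊤ := by
    rw [hL2]
    exact LinearMap.mkContinuous_norm_le _ (h0 _) _
  refine ⟨L, hLind, hLn, ?_⟩
  intro f hf
  have hone : ind (⊤ : A) = (1 : C(St A, ℝ)) := by
    ext p
    rw [ind_apply, p.top]
    rfl
  have h1 : ‖‖f‖ • ind (⊤ : A) - f‖ ≤ ‖f‖ := by
    rw [ContinuousMap.norm_le _ (norm_nonneg f)]
    intro p
    rw [hone]
    have h2 : f p ≤ ‖f‖ := (le_abs_self _).trans (f.norm_coe_le_norm p)
    have h3 : 0 ≤ f p := hf p
    change ‖‖f‖ * 1 - f p‖ ≤ ‖f‖
    rw [Real.norm_eq_abs, abs_le]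
    constructor <;> linarith
  have h2 := L.le_opNorm (‖f‖ • ind (⊤ : A) - f)
  rw [map_sub, map_smul, hLind, Real.norm_eq_abs] at h2
  have h3 := (le_abs_self _).trans h2
  have h4 : ‖L‖ * ‖‖f‖ • ind (⊤ : A) - f‖ ≤ m ⊤ * ‖f‖ :=
    mul_le_mul hLn h1 (norm_nonneg _) (h0 _)
  simp only [smul_eq_mul] at h3
  nlinarith

end functional

/-- the span of the indicators is dense -/
lemma dense_span (f : C(St A, ℝ)) {ε : ℝ} (hε : 0 < ε) :
    ∃ g ∈ Submodule.span ℝ (Set.range (ind (A := A))), ‖f - g‖ < ε := by
  set S : Submonoid C(St A, ℝ) :=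
    { carrier := Set.range ind
      mul_mem' := by
        rintro _ _ ⟨a, rfl⟩ ⟨b, rfl⟩
        refine ⟨a ⊓ b, ?_⟩
        ext p
        rw [ContinuousMap.mul_apply, ind_apply, ind_apply, ind_apply, p.2.1]
        cases p.1 a <;> cases p.1 b <;> simp
      one_mem' := by
        refine ⟨⊤, ?_⟩
        ext p
        rw [ind_apply, p.top]
        rfl } with hS
  have h1 : (Algebra.adjoin ℝ (S : Set C(St A, ℝ))).topologicalClosure = ⊤ := by
    refine ContinuousMap.subalgebra_topologicalClosure_eq_top_of_separatesPoints _ ?_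
    intro p q hpq
    have : ∃ a, p.1 a ≠ q.1 a := by
      by_contra hcon
      push Not at hcon
      exact hpq (Subtype.ext (funext hcon))
    obtain ⟨a, ha⟩ := this
    refine ⟨ind a, ⟨ind a, Algebra.subset_adjoin ⟨a, rfl⟩, rfl⟩, ?_⟩
    rw [ind_apply, ind_apply]
    revert ha
    cases p.1 a <;> cases q.1 a <;> simp
  have h2 : f ∈ closure ((Algebra.adjoin ℝ (S : Set C(St A, ℝ)) : Subalgebra ℝ C(St A, ℝ)) :
      Set C(St A, ℝ)) := by
    have : f ∈ (Algebra.adjoin ℝ (S : Set C(St A, ℝ))).topologicalClosure := by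
      rw [h1]
      trivial
    exact this
  obtain ⟨g, hg, hfg⟩ := Metric.mem_closure_iff.1 h2 ε hε
  refine ⟨g, ?_, by rwa [dist_eq_norm] at hfg⟩
  have h3 : g ∈ Subalgebra.toSubmodule (Algebra.adjoin ℝ (S : Set C(St A, ℝ))) := hg
  rw [Algebra.adjoin_eq_span, Submonoid.closure_eq] at h3
  exact h3

/-- convergence on the algebra implies weak* convergence of bounded functionals -/
theorem weakstar {x : ℕ → StrongDual ℝ C(St A, ℝ)} {y : StrongDual ℝ C(St A, ℝ)}
    (hx : ∀ n, ‖x n‖ ≤ 1) (hy : ‖y‖ ≤ 1)
    (h : ∀ a, Tendsto (fun n => x n (ind a)) atTop (𝓝 (y (ind a)))) (f : C(St A, ℝ)) :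
    Tendsto (fun n => x n f) atTop (𝓝 (y f)) := by
  have hspan : ∀ g ∈ Submodule.span ℝ (Set.range (ind (A := A))),
      Tendsto (fun n => x n g) atTop (𝓝 (y g)) := by
    intro g hg
    induction hg using Submodule.span_induction with
    | mem g hg =>
      obtain ⟨a, rfl⟩ := hg
      exact h a
    | zero => simp
    | add g₁ g₂ _ _ h1 h2 =>
      simp only [map_add]
      exact h1.add h2
    | smul c g _ h1 =>
      simp only [map_smul]
      exact h1.const_smul c
  rw [Metric.tendsto_atTop]
  intro ε hε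
  obtain ⟨g, hg, hfg⟩ := dense_span f (show 0 < ε / 3 by linarith)
  obtain ⟨N, hN⟩ := Metric.tendsto_atTop.1 (hspan g hg) (ε / 3) (by linarith)
  refine ⟨N, fun n hn => ?_⟩
  have h1 := hN n hn
  rw [Real.dist_eq] at h1 ⊢
  have h2 : |x n f - x n g| ≤ ‖f - g‖ := by
    rw [← map_sub]
    have := (x n).le_opNorm (f - g)
    rw [Real.norm_eq_abs] at this
    exact this.trans (mul_le_of_le_one_left (norm_nonneg _) (hx n))
  have h3 : |y f - y g| ≤ ‖f - g‖ := by
    rw [← map_sub]
    have := y.le_opNorm (f - g)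
    rw [Real.norm_eq_abs] at this
    exact this.trans (mul_le_of_le_one_left (norm_nonneg _) hy)
  rw [abs_lt] at h1 ⊢
  rw [abs_le] at h2 h3
  constructor <;> linarith

/-- Banach-Alaoglu for sequences of functionals, along an ultrafilter -/
lemma alaoglu {E : Type*} [NormedAddCommGroup E] [NormedSpace ℝ E] (v : ℕ → StrongDual ℝ E)
    (hv : ∀ n, ‖v n‖ ≤ 1) :
    ∃ F : StrongDual ℝ E, ∀ x : E, Tendsto (fun n => v n x) (hyperfilter ℕ) (𝓝 (F x)) := by
  have hcomp := WeakDual.isCompact_closedBall (𝕜 := ℝ) (E := E) 0 1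
  obtain ⟨F, -, hF⟩ := hcomp.ultrafilter_le_nhds
    ((hyperfilter ℕ).map fun n => StrongDual.toWeakDual (v n))
    (by
      rw [Ultrafilter.coe_map, le_principal_iff, mem_map]
      refine univ_mem' fun n => ?_
      rw [mem_preimage, mem_preimage, mem_closedBall_zero_iff]
      exact hv n)
  refine ⟨WeakDual.toStrongDual F, fun x => ?_⟩
  have h1 : Tendsto (fun G : WeakDual ℝ E => G x) (𝓝 F) (𝓝 (F x)) :=
    (WeakDual.eval_continuous x).tendsto F
  exact h1.comp hF

/-- elements of the bidual as cluster points -/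
theorem exists_bidual {E : Type*} [NormedAddCommGroup E] [NormedSpace ℝ E] (v : ℕ → E)
    (hv : ∀ n, ‖v n‖ ≤ 1) : ∃ F : StrongDual ℝ (StrongDual ℝ E),
      ∀ L : StrongDual ℝ E, Tendsto (fun n => L (v n)) (hyperfilter ℕ) (𝓝 (F L)) :=
  alaoglu (fun n => NormedSpace.inclusionInDoubleDual ℝ E (v n))
    (fun n => (NormedSpace.double_dual_bound ℝ E (v n)).trans (hv n))

theorem WeakStarToWeak.absurd {E : Type*} [NormedAddCommGroup E] [NormedSpace ℝ E]
    {P : StrongDual ℝ E → Prop} (h : WeakStarToWeak E P) {x : ℕ → StrongDual ℝ E}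
    {y : StrongDual ℝ E} (hP : ∀ n, P (x n)) (hxy : ∀ f, Tendsto (fun n => x n f) atTop (𝓝 (y f)))
    {v : ℕ → E} (hv : ∀ n, ‖v n‖ ≤ 1) {c d : ℝ} (hcd : d < c)
    (h1 : ∀ k, ∀ᶠ n in atTop, c ≤ x k (v n)) (h2 : ∀ᶠ n in atTop, y (v n) ≤ d) : False := by
  have hle : (hyperfilter ℕ : Filter ℕ) ≤ atTop := by
    rw [← Nat.cofinite_eq_atTop]
    exact hyperfilter_le_cofinite
  obtain ⟨F, hF⟩ := exists_bidual v hv
  have h3 : ∀ k, c ≤ F (x k) := fun k => ge_of_tendsto (hF (x k)) (hle (h1 k))
  have h4 : F y ≤ d := le_of_tendsto (hF y) (hle h2)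
  have h5 : c ≤ F y := ge_of_tendsto (h x y hP hxy F) (Eventually.of_forall h3)
  linarith

lemma norm_ind_le (a : A) : ‖ind a‖ ≤ 1 := by
  rw [ContinuousMap.norm_le _ zero_le_one]
  intro p
  rw [ind_apply]
  split <;> simp

end Pool.Agent.X185.GR
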